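import Pool.Agent.Y6.K.Stm

/-!
Job EK-LIM (project EK of helper6): limits of the solutions of the truncated systems along an
ultrafilter.
-/

open Set Filter Topology MeasureTheory

set_option autoImplicit false

namespace Pool.Agent.Y620.EK

open Pool.Agent.Y5 Pool.Agent.Y5.D Pool.Agent.Y6.K

/-! ### Summability of the dominating function -/

lemma sum_fst {I : Type} {f : I → I → ℝ} {R : ℝ} {D : ℕ} (h0 : ∀ a b, |f a b| ≤ R)
    (hd : ∀ a, {b | f a b ≠ 0}.Finite ∧ {b | f a b ≠ 0}.ncard ≤ D) {w : I → ℝ}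
    (hw : ∀ a, 0 ≤ w a) (hs : Summable w) :
    Summable (fun p : I × I => |f p.1 p.2| * w p.1) := by
  have hR : ∀ a : I, 0 ≤ R := fun a => (abs_nonneg _).trans (h0 a a)
  rw [summable_prod_of_nonneg (fun p => mul_nonneg (abs_nonneg _) (hw _))]
  have key : ∀ a, ∀ b ∉ (hd a).1.toFinset, |f a b| * w a = 0 := by
    intro a b hb
    rw [Set.Finite.mem_toFinset] at hb
    have : f a b = 0 := by simpa using hb
    rw [this, abs_zero, zero_mul]
  refine ⟨fun a => summable_of_ne_finset_zero (s := (hd a).1.toFinset) (key a), ?_⟩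
  refine Summable.of_nonneg_of_le (fun a => tsum_nonneg fun b => mul_nonneg (abs_nonneg _) (hw _))
    (fun a => ?_) (hs.mul_left (D * R))
  change ∑' b, |f a b| * w a ≤ _
  rw [tsum_eq_sum (s := (hd a).1.toFinset) (key a)]
  have h1 : ∑ b ∈ (hd a).1.toFinset, |f a b| * w a ≤
      (hd a).1.toFinset.card • (R * w a) :=
    Finset.sum_le_card_nsmul _ _ _ fun b _ => mul_le_mul_of_nonneg_right (h0 a b) (hw a)
  refine h1.trans ?_
  rw [nsmul_eq_mul, mul_assoc]
  refine mul_le_mul_of_nonneg_right ?_ (mul_nonneg (hR a) (hw a))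
  have h2 := (hd a).2
  rw [Set.ncard_eq_toFinset_card _ (hd a).1] at h2
  exact_mod_cast h2

lemma sum_snd {I : Type} {f : I → I → ℝ} {R : ℝ} {D : ℕ} (h0 : ∀ a b, |f a b| ≤ R)
    (hd : ∀ b, {a | f a b ≠ 0}.Finite ∧ {a | f a b ≠ 0}.ncard ≤ D) {w : I → ℝ}
    (hw : ∀ a, 0 ≤ w a) (hs : Summable w) :
    Summable (fun p : I × I => |f p.1 p.2| * w p.2) := by
  have h := sum_fst (f := fun a b => f b a) (fun a b => h0 b a) hd hw hs
  rw [← (Equiv.prodComm I I).summable_iff] at h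
  exact h

variable {J : Type} {o : J → ℕ} {σ : J → J} {τ : J → ℝ} {A : ℕ → ℝ}
  {c : Ix J → Ix J → Ix J → ℝ} {β S : ℕ → ℝ}

/-- weights of the other modes -/
def w2 (β : ℕ → ℝ) (o : J → ℕ) : Ix J → ℝ
  | Sum.inl _ => 0
  | Sum.inr j => β (o j)

/-- indicator of the main modes -/
def mn : Ix J → ℝ
  | Sum.inl _ => 1
  | Sum.inr _ => 0

/-- the dominating function -/
def dom (β : ℕ → ℝ) (o : J → ℕ) (c : Ix J → Ix J → Ix J → ℝ) (i : Ix J) (p : Ix J × Ix J) : ℝ :=
  |c i p.1 p.2| * (mn p.1 * mn p.2) + |c i p.1 p.2| * w2 β o p.1 + |c i p.1 p.2| * w2 β o p.2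

lemma w2_nonneg (hβ : ∀ m, 0 < β m) (a : Ix J) : 0 ≤ w2 β o a := by
  cases a with
  | inl n => exact le_rfl
  | inr j => exact (hβ _).le

lemma mn_nonneg (a : Ix J) : 0 ≤ (mn a : ℝ) := by
  cases a with
  | inl n => exact zero_le_one
  | inr j => exact le_rfl

lemma w2_summable (hs : Summable (fun j => β (o j))) : Summable (w2 β o : Ix J → ℝ) := by
  have h1 : Function.Injective (Sum.inr : J → Ix J) := Sum.inr_injective
  refine (h1.summable_iff ?_).1 hs
  intro x hx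
  cases x with
  | inl n => rfl
  | inr j => exact absurd ⟨j, rfl⟩ hx

lemma main_fin (hK : Ker o σ τ A c) (i : Ix J) :
    {p : ℕ × ℕ | c i (Sum.inl p.1) (Sum.inl p.2) ≠ 0}.Finite := by
  cases i with
  | inr w => exact hK.mfin w
  | inl n =>
    refine Set.Finite.subset (Set.toFinite ({(n - 1, n - 1), (n, n + 1)} : Set (ℕ × ℕ))) ?_
    rintro ⟨p, q⟩ hpq
    rw [Set.mem_ofPred_eq, hK.tab] at hpq
    by_cases h1 : p = q ∧ n = p + 1
    · left
      obtain ⟨h2, h3⟩ := h1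
      simp only [Prod.mk.injEq]
      omega
    · right
      rw [if_neg h1] at hpq
      by_cases h2 : p = n ∧ q = n + 1
      · simp only [Set.mem_singleton_iff, Prod.mk.injEq]
        exact h2
      · rw [if_neg h2] at hpq
        simp at hpq

lemma dom_summable (hK : Ker o σ τ A c) (hβ : ∀ m, 0 < β m) (hs : Summable (fun j => β (o j)))
    (i : Ix J) : Summable (dom β o c i) := by
  obtain ⟨R, hR⟩ := hK.bdd i
  obtain ⟨D, hD⟩ := hK.deg
  refine (Summable.add ?_ ?_).add ?_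
  · have hf := (main_fin hK i).image (fun p : ℕ × ℕ => ((Sum.inl p.1, Sum.inl p.2) : Ix J × Ix J))
    refine summable_of_ne_finset_zero (s := hf.toFinset) ?_
    rintro ⟨a, b⟩ hab
    rw [Set.Finite.mem_toFinset] at hab
    cases a with
    | inr j => simp [mn]
    | inl p =>
      cases b with
      | inr j => simp [mn]
      | inl q =>
        have : c i (Sum.inl p) (Sum.inl q) = 0 := by
          by_contra hne
          exact hab ⟨(p, q), hne, rfl⟩
        simp [this]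
  · exact sum_fst hR (fun a => ⟨(hD i a).1.1, (hD i a).1.2⟩) (w2_nonneg hβ) (w2_summable hs)
  · exact sum_snd hR (fun a => ⟨(hD i a).2.1, (hD i a).2.2⟩) (w2_nonneg hβ) (w2_summable hs)

/-- controlled vectors -/
def Ctl (β : ℕ → ℝ) (o : J → ℕ) (z : Ix J → ℝ) : Prop :=
  (∀ a, |z a| ≤ 1) ∧ ∀ j, |z (Sum.inr j)| ≤ β (o j)

lemma Ctl.prod (hβ : ∀ m, 0 < β m) {x y : Ix J → ℝ} (hx : Ctl β o x) (hy : Ctl β o y)
    (a b : Ix J) : |x a| * |y b| ≤ mn a * mn b + w2 β o a + w2 β o b := by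
  have ha := hx.1 a
  have hb := hy.1 b
  have h0a := abs_nonneg (x a)
  have h0b := abs_nonneg (y b)
  cases a with
  | inr j =>
    have h1 := hx.2 j
    have h2 : |x (Sum.inr j)| * |y b| ≤ β (o j) := by nlinarith [hβ (o j)]
    have h3 : 0 ≤ w2 β o b := w2_nonneg hβ b
    simp only [mn, w2] at *
    linarith
  | inl n =>
    cases b with
    | inr j =>
      have h1 := hy.2 j
      have h2 : |x (Sum.inl n)| * |y (Sum.inr j)| ≤ β (o j) := by nlinarith [hβ (o j)]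
      simp only [mn, w2] at *
      linarith
    | inl m =>
      simp only [mn, w2] at *
      nlinarith

lemma Ctl.term (hβ : ∀ m, 0 < β m) {x y : Ix J → ℝ} (hx : Ctl β o x) (hy : Ctl β o y)
    (i : Ix J) (p : Ix J × Ix J) : |c i p.1 p.2 * x p.1 * y p.2| ≤ dom β o c i p := by
  rw [abs_mul, abs_mul, mul_assoc]
  have := mul_le_mul_of_nonneg_left (hx.prod hβ hy p.1 p.2) (abs_nonneg (c i p.1 p.2))
  refine this.trans (le_of_eq ?_)
  unfold dom
  ring

lemma dom_nonneg (hβ : ∀ m, 0 < β m) (i : Ix J) (p : Ix J × Ix J) : 0 ≤ dom β o c i p := by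
  unfold dom
  have h1 := w2_nonneg (o := o) hβ p.1
  have h2 := w2_nonneg (o := o) hβ p.2
  have h3 : (0 : ℝ) ≤ mn p.1 := mn_nonneg p.1
  have h4 : (0 : ℝ) ≤ mn p.2 := mn_nonneg p.2
  positivity

lemma Ctl.summable (hK : Ker o σ τ A c) (hβ : ∀ m, 0 < β m) (hs : Summable (fun j => β (o j)))
    {x : Ix J → ℝ} (hx : Ctl β o x) (i : Ix J) :
    Summable (fun p : Ix J × Ix J => c i p.1 p.2 * x p.1 * x p.2) :=
  Summable.of_norm_bounded (dom_summable hK hβ hs i) fun p => hx.term hβ hx i p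

lemma Ctl.qd_le (hK : Ker o σ τ A c) (hβ : ∀ m, 0 < β m) (hs : Summable (fun j => β (o j)))
    {x : Ix J → ℝ} (hx : Ctl β o x) (i : Ix J) : |qd c x i| ≤ ∑' p, dom β o c i p := by
  have h := tsum_of_norm_bounded (dom_summable hK hβ hs i).hasSum
    (f := fun p : Ix J × Ix J => c i p.1 p.2 * x p.1 * x p.2) fun p => hx.term hβ hx i p
  exact h

/-- the vector field -/
noncomputable def G (S : ℕ → ℝ) (o : J → ℕ) (σ : J → J) (τ : J → ℝ)
    (c : Ix J → Ix J → Ix J → ℝ) (z : Ix J → ℝ) (i : Ix J) : ℝ := Kz S o σ τ z i + qd c z i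

/-- the partner -/
def sw (σ : J → J) : Ix J → Ix J
  | Sum.inl n => Sum.inl n
  | Sum.inr j => Sum.inr (σ j)

/-- the coefficient of the linear term -/
noncomputable def kc (S : ℕ → ℝ) (o : J → ℕ) (τ : J → ℝ) : Ix J → ℝ
  | Sum.inl _ => 0
  | Sum.inr j => S (o j) * τ j

lemma Kz_eq (z : Ix J → ℝ) (i : Ix J) : Kz S o σ τ z i = kc S o τ i * z (sw σ i) := by
  cases i with
  | inl n => simp [Kz, kc]
  | inr j => rfl

/-- the Lipschitz constant -/
noncomputable def Lc (S : ℕ → ℝ) (β : ℕ → ℝ) (o : J → ℕ) (τ : J → ℝ)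
    (c : Ix J → Ix J → Ix J → ℝ) (i : Ix J) : ℝ := |kc S o τ i| + ∑' p, dom β o c i p

lemma Lc_nonneg (hβ : ∀ m, 0 < β m) (i : Ix J) : 0 ≤ Lc S β o τ c i :=
  add_nonneg (abs_nonneg _) (tsum_nonneg fun p => dom_nonneg hβ i p)

lemma Ctl.G_le (hK : Ker o σ τ A c) (hβ : ∀ m, 0 < β m) (hs : Summable (fun j => β (o j)))
    {x : Ix J → ℝ} (hx : Ctl β o x) (i : Ix J) : |G S o σ τ c x i| ≤ Lc S β o τ c i := by
  unfold G Lc
  refine (abs_add_le _ _).trans (add_le_add ?_ (hx.qd_le hK hβ hs i))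
  rw [Kz_eq, abs_mul]
  have := hx.1 (sw σ i)
  have h0 := abs_nonneg (kc S o τ i)
  nlinarith

/-- the modulus of continuity of the quadratic term -/
noncomputable def wq (S : ℕ → ℝ) (β : ℕ → ℝ) (o : J → ℕ) (τ : J → ℝ)
    (c : Ix J → Ix J → Ix J → ℝ) (i : Ix J) (δ : ℝ) : ℝ :=
  ∑' p : Ix J × Ix J, min (2 * dom β o c i p)
    (|c i p.1 p.2| * (Lc S β o τ c p.1 + Lc S β o τ c p.2) * δ)

lemma wq_summable (hK : Ker o σ τ A c) (hβ : ∀ m, 0 < β m) (hs : Summable (fun j => β (o j)))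
    (i : Ix J) {δ : ℝ} (hδ : 0 ≤ δ) : Summable (fun p : Ix J × Ix J => min (2 * dom β o c i p)
    (|c i p.1 p.2| * (Lc S β o τ c p.1 + Lc S β o τ c p.2) * δ)) := by
  refine Summable.of_nonneg_of_le (fun p => ?_) (fun p => min_le_left _ _)
    ((dom_summable hK hβ hs i).mul_left 2)
  have h1 := dom_nonneg (c := c) (o := o) hβ i p
  have h2 := Lc_nonneg (S := S) (c := c) (o := o) (τ := τ) hβ p.1
  have h3 := Lc_nonneg (S := S) (c := c) (o := o) (τ := τ) hβ p.2
  exact le_min (by positivity) (by positivity)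

lemma wq_mono (hK : Ker o σ τ A c) (hβ : ∀ m, 0 < β m) (hs : Summable (fun j => β (o j)))
    (i : Ix J) {δ δ' : ℝ} (hδ : 0 ≤ δ) (h : δ ≤ δ') : wq S β o τ c i δ ≤ wq S β o τ c i δ' := by
  refine Summable.tsum_le_tsum (fun p => ?_) (wq_summable hK hβ hs i hδ)
    (wq_summable hK hβ hs i (hδ.trans h))
  have h2 := Lc_nonneg (S := S) (c := c) (o := o) (τ := τ) hβ p.1
  have h3 := Lc_nonneg (S := S) (c := c) (o := o) (τ := τ) hβ p.2
  exact min_le_min le_rfl (mul_le_mul_of_nonneg_left h (by positivity))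

lemma wq_tendsto (hK : Ker o σ τ A c) (hβ : ∀ m, 0 < β m) (hs : Summable (fun j => β (o j)))
    (i : Ix J) : Tendsto (wq S β o τ c i) (𝓝[≥] 0) (𝓝 0) := by
  have h := tendsto_tsum_of_dominated_convergence (𝓕 := 𝓝[≥] (0 : ℝ))
    (f := fun (δ : ℝ) (p : Ix J × Ix J) => min (2 * dom β o c i p)
      (|c i p.1 p.2| * (Lc S β o τ c p.1 + Lc S β o τ c p.2) * δ))
    (g := fun _ => 0) (bound := fun p => 2 * dom β o c i p)
    ((dom_summable hK hβ hs i).mul_left 2) ?_ ?_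
  · rw [tsum_zero] at h
    exact h
  · intro p
    have h1 := dom_nonneg (c := c) (o := o) hβ i p
    have hc : Continuous (fun δ : ℝ => min (2 * dom β o c i p)
      (|c i p.1 p.2| * (Lc S β o τ c p.1 + Lc S β o τ c p.2) * δ)) := by fun_prop
    have h2 := (hc.tendsto 0).mono_left (nhdsWithin_le_nhds (s := Ici 0))
    rw [mul_zero, min_eq_right (by positivity)] at h2
    exact h2
  · filter_upwards [self_mem_nhdsWithin] with δ hδ p
    have hδ' : 0 ≤ δ := hδ
    have h1 := dom_nonneg (c := c) (o := o) hβ i p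
    have h2 := Lc_nonneg (S := S) (c := c) (o := o) (τ := τ) hβ p.1
    have h3 := Lc_nonneg (S := S) (c := c) (o := o) (τ := τ) hβ p.2
    rw [Real.norm_eq_abs, abs_of_nonneg (le_min (by positivity) (by positivity))]
    exact min_le_left _ _

lemma qd_diff (hK : Ker o σ τ A c) (hβ : ∀ m, 0 < β m) (hs : Summable (fun j => β (o j)))
    {x y : Ix J → ℝ} (hx : Ctl β o x) (hy : Ctl β o y) {δ : ℝ} (hδ : 0 ≤ δ)
    (hd : ∀ a, |x a - y a| ≤ Lc S β o τ c a * δ) (i : Ix J) :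
    |qd c x i - qd c y i| ≤ wq S β o τ c i δ := by
  unfold qd
  rw [← (hx.summable hK hβ hs i).tsum_sub (hy.summable hK hβ hs i)]
  refine tsum_of_norm_bounded (f := fun p : Ix J × Ix J => c i p.1 p.2 * x p.1 * x p.2 -
    c i p.1 p.2 * y p.1 * y p.2) (wq_summable (S := S) (τ := τ) hK hβ hs i hδ).hasSum fun p => ?_
  rw [Real.norm_eq_abs]
  refine le_min ?_ ?_
  · refine (abs_sub _ _).trans ?_
    have h1 := hx.term (c := c) hβ hx i p
    have h2 := hy.term (c := c) hβ hy i p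
    linarith
  · have h1 : c i p.1 p.2 * x p.1 * x p.2 - c i p.1 p.2 * y p.1 * y p.2 =
        c i p.1 p.2 * ((x p.1 - y p.1) * x p.2 + y p.1 * (x p.2 - y p.2)) := by ring
    rw [h1, abs_mul, mul_assoc]
    refine mul_le_mul_of_nonneg_left ?_ (abs_nonneg _)
    refine (abs_add_le _ _).trans ?_
    rw [abs_mul, abs_mul, add_mul]
    have h2 := hd p.1
    have h3 := hd p.2
    have h4 := hx.1 p.2
    have h5 := hy.1 p.1
    have h6 := abs_nonneg (x p.1 - y p.1)
    have h7 := abs_nonneg (x p.2 - y p.2)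
    have h8 := abs_nonneg (x p.2)
    have h9 := abs_nonneg (y p.1)
    nlinarith

/-- the modulus of continuity of the vector field -/
noncomputable def wG (S : ℕ → ℝ) (β : ℕ → ℝ) (o : J → ℕ) (σ : J → J) (τ : J → ℝ)
    (c : Ix J → Ix J → Ix J → ℝ) (i : Ix J) (δ : ℝ) : ℝ :=
  |kc S o τ i| * (Lc S β o τ c (sw σ i) * δ) + wq S β o τ c i δ

lemma wG_mono (hK : Ker o σ τ A c) (hβ : ∀ m, 0 < β m) (hs : Summable (fun j => β (o j)))
    (i : Ix J) {δ δ' : ℝ} (hδ : 0 ≤ δ) (h : δ ≤ δ') :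
    wG S β o σ τ c i δ ≤ wG S β o σ τ c i δ' := by
  have h2 := Lc_nonneg (S := S) (c := c) (o := o) (τ := τ) hβ (sw σ i)
  exact add_le_add (mul_le_mul_of_nonneg_left (mul_le_mul_of_nonneg_left h h2) (abs_nonneg _))
    (wq_mono hK hβ hs i hδ h)

lemma wG_tendsto (hK : Ker o σ τ A c) (hβ : ∀ m, 0 < β m) (hs : Summable (fun j => β (o j)))
    (i : Ix J) : Tendsto (wG S β o σ τ c i) (𝓝[≥] 0) (𝓝 0) := by
  have hc : Continuous (fun δ : ℝ => |kc S o τ i| * (Lc S β o τ c (sw σ i) * δ)) := by fun_prop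
  have h2 := (hc.tendsto 0).mono_left (nhdsWithin_le_nhds (s := Ici 0))
  have h3 := h2.add (wq_tendsto (S := S) (τ := τ) hK hβ hs i)
  rw [mul_zero, mul_zero, add_zero] at h3
  exact h3

lemma G_diff (hK : Ker o σ τ A c) (hβ : ∀ m, 0 < β m) (hs : Summable (fun j => β (o j)))
    {x y : Ix J → ℝ} (hx : Ctl β o x) (hy : Ctl β o y) {δ : ℝ} (hδ : 0 ≤ δ)
    (hd : ∀ a, |x a - y a| ≤ Lc S β o τ c a * δ) (i : Ix J) :
    |G S o σ τ c x i - G S o σ τ c y i| ≤ wG S β o σ τ c i δ := by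
  unfold G wG
  have h1 : Kz S o σ τ x i + qd c x i - (Kz S o σ τ y i + qd c y i) =
      kc S o τ i * (x (sw σ i) - y (sw σ i)) + (qd c x i - qd c y i) := by
    rw [Kz_eq, Kz_eq]
    ring
  rw [h1]
  refine (abs_add_le _ _).trans (add_le_add ?_ (qd_diff hK hβ hs hx hy hδ hd i))
  rw [abs_mul]
  exact mul_le_mul_of_nonneg_left (hd _) (abs_nonneg _)

/-! ### The truncated solutions -/

lemma lev_fin (hK : Ker o σ τ A c) (N : ℕ) : {i : Ix J | lv o i ≤ N}.Finite := by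
  refine Set.Finite.subset (((Set.finite_Iic N).image Sum.inl).union
    ((hK.fin N).image Sum.inr)) ?_
  intro i hi
  cases i with
  | inl n => exact Or.inl ⟨n, hi, rfl⟩
  | inr j => exact Or.inr ⟨j, hi, rfl⟩

lemma ts_ctl (hK : Ker o σ τ A c) {N : ℕ} {z : Ix J → ℝ → ℝ} (hz : TSol S o σ τ c N z)
    (hb : ∀ j, ∀ t ∈ Icc (0 : ℝ) 60, |z (Sum.inr j) t| ≤ β (o j)) {t : ℝ}
    (ht : t ∈ Icc (0 : ℝ) 60) : Ctl β o (fun a => z a t) := by
  refine ⟨fun a => ?_, fun j => hb j t ht⟩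
  have hs : Summable (fun a => z a t ^ 2) := by
    refine summable_of_ne_finset_zero (s := (lev_fin hK N).toFinset) ?_
    intro b hb
    rw [Set.Finite.mem_toFinset, Set.mem_ofPred_eq, not_le] at hb
    rw [hz.zero b hb t]
    simp
  have h1 : z a t ^ 2 ≤ ∑' a, z a t ^ 2 := hs.le_tsum a fun b _ => sq_nonneg _
  have h2 := hz.energy t ht
  have h3 : z a t ^ 2 ≤ 1 := h1.trans h2
  exact (sq_le_one_iff_abs_le_one _).1 h3

lemma ts_lip (hK : Ker o σ τ A c) (hβ : ∀ m, 0 < β m) (hs : Summable (fun j => β (o j)))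
    {N : ℕ} {z : Ix J → ℝ → ℝ} (hz : TSol S o σ τ c N z)
    (hb : ∀ j, ∀ t ∈ Icc (0 : ℝ) 60, |z (Sum.inr j) t| ≤ β (o j)) (a : Ix J) {s t : ℝ}
    (hs' : s ∈ Icc (0 : ℝ) 60) (ht : t ∈ Icc (0 : ℝ) 60) :
    |z a t - z a s| ≤ Lc S β o τ c a * |t - s| := by
  by_cases ha : lv o a ≤ N
  · exact (convex_Icc (0 : ℝ) 60).norm_image_sub_le_of_norm_hasDerivWithin_le
      (fun r hr => hz.deriv a ha r hr)
      (fun r hr => (ts_ctl hK hz hb hr).G_le hK hβ hs a) hs' ht
  · rw [not_le] at ha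
    rw [hz.zero a ha, hz.zero a ha, sub_zero, abs_zero]
    exact mul_nonneg (Lc_nonneg hβ a) (abs_nonneg _)

lemma ts_taylor (hK : Ker o σ τ A c) (hβ : ∀ m, 0 < β m) (hs : Summable (fun j => β (o j)))
    {N : ℕ} {z : Ix J → ℝ → ℝ} (hz : TSol S o σ τ c N z)
    (hb : ∀ j, ∀ t ∈ Icc (0 : ℝ) 60, |z (Sum.inr j) t| ≤ β (o j)) (i : Ix J)
    (hi : lv o i ≤ N) {s t : ℝ} (hs' : s ∈ Icc (0 : ℝ) 60) (ht : t ∈ Icc (0 : ℝ) 60) :
    |z i t - z i s - (t - s) * G S o σ τ c (fun a => z a s) i|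
      ≤ wG S β o σ τ c i |t - s| * |t - s| := by
  have hsub : uIcc s t ⊆ Icc (0 : ℝ) 60 := uIcc_subset_Icc hs' ht
  set g := G S o σ τ c (fun a => z a s) i with hg
  have h1 : ∀ r ∈ uIcc s t, HasDerivWithinAt (fun r => z i r - r * g)
      (G S o σ τ c (fun a => z a r) i - 1 * g) (uIcc s t) r := by
    intro r hr
    exact ((hz.deriv i hi r (hsub hr)).mono hsub).sub
      ((hasDerivWithinAt_id r _).mul_const g)
  have h2 : ∀ r ∈ uIcc s t, ‖G S o σ τ c (fun a => z a r) i - 1 * g‖ ≤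
      wG S β o σ τ c i |t - s| := by
    intro r hr
    rw [one_mul, Real.norm_eq_abs]
    refine (G_diff hK hβ hs (ts_ctl hK hz hb (hsub hr)) (ts_ctl hK hz hb hs')
      (abs_nonneg (r - s)) (fun a => ts_lip hK hβ hs hz hb a hs' (hsub hr)) i).trans ?_
    exact wG_mono hK hβ hs i (abs_nonneg _) (abs_sub_left_of_mem_uIcc hr)
  have h3 := (convex_uIcc s t).norm_image_sub_le_of_norm_hasDerivWithin_le h1 h2
    left_mem_uIcc right_mem_uIcc
  have h4 : z i t - t * g - (z i s - s * g) = z i t - z i s - (t - s) * g := by ring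
  rw [h4] at h3
  exact h3

/-! ### The limit -/

theorem t_LIM' : S_LIM := by
  intro J o σ τ A c β S hK hβ hs Z hZ hb U hU
  have hctl : ∀ N, ∀ t ∈ Icc (0 : ℝ) 60, Ctl β o (fun a => Z N a t) := fun N t ht =>
    ts_ctl hK (hZ N) (hb N) ht
  have hex : ∀ i : Ix J, ∀ t : ℝ, ∃ x : ℝ, t ∈ Icc (0 : ℝ) 60 →
      Tendsto (fun N => Z N i t) U (𝓝 x) := by
    intro i t
    by_cases ht : t ∈ Icc (0 : ℝ) 60
    · have hc : IsCompact (Icc (-1 : ℝ) 1) := isCompact_Icc
      have hm : (U.map (fun N => Z N i t) : Filter ℝ) ≤ 𝓟 (Icc (-1 : ℝ) 1) := by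
        rw [le_principal_iff]
        exact Filter.mem_map.2 (Filter.univ_mem' fun N => abs_le.1 ((hctl N t ht).1 i))
      obtain ⟨x, _, hx⟩ := hc.ultrafilter_le_nhds (U.map (fun N => Z N i t)) hm
      exact ⟨x, fun _ => hx⟩
    · exact ⟨0, fun h => absurd h ht⟩
  choose z hz using hex
  have hlim : ∀ i, ∀ t ∈ Icc (0 : ℝ) 60, Tendsto (fun N => Z N i t) U (𝓝 (z i t)) :=
    fun i t ht => hz i t ht
  have hq : ∀ i, ∀ t ∈ Icc (0 : ℝ) 60,
      Tendsto (fun N => G S o σ τ c (fun a => Z N a t) i) U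
        (𝓝 (G S o σ τ c (fun a => z a t) i)) := by
    intro i t ht
    unfold G
    refine Tendsto.add ?_ ?_
    · simp_rw [Kz_eq]
      exact (hlim _ t ht).const_mul _
    · unfold qd
      refine tendsto_tsum_of_dominated_convergence (dom_summable hK hβ hs i) ?_ ?_
      · intro p
        exact ((hlim p.1 t ht).const_mul _).mul (hlim p.2 t ht)
      · exact Eventually.of_forall fun N p => (hctl N t ht).term hβ (hctl N t ht) i p
  have hge : ∀ i, ∀ᶠ N in (U : Filter ℕ), lv o i ≤ N := fun i => hU (eventually_ge_atTop _)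
  have htay : ∀ i, ∀ s ∈ Icc (0 : ℝ) 60, ∀ t ∈ Icc (0 : ℝ) 60,
      |z i t - z i s - (t - s) * G S o σ τ c (fun a => z a s) i|
        ≤ wG S β o σ τ c i |t - s| * |t - s| := by
    intro i s hs' t ht
    have h1 : Tendsto (fun N => |Z N i t - Z N i s - (t - s) * G S o σ τ c (fun a => Z N a s) i|)
        U (𝓝 |z i t - z i s - (t - s) * G S o σ τ c (fun a => z a s) i|) :=
      (((hlim i t ht).sub (hlim i s hs')).sub ((hq i s hs').const_mul _)).abs
    refine le_of_tendsto h1 ?_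
    filter_upwards [hge i] with N hN
    exact ts_taylor hK hβ hs (hZ N) (hb N) i hN hs' ht
  have h0 : (0 : ℝ) ∈ Icc (0 : ℝ) 60 := ⟨le_rfl, by norm_num⟩
  refine ⟨z, ⟨?_, ?_, ?_, ?_⟩, hlim⟩
  · intro i s hs'
    rw [hasDerivWithinAt_iff_isLittleO, Asymptotics.isLittleO_iff]
    intro ε hε
    have hw := wG_tendsto (S := S) (σ := σ) hK hβ hs i
    have h1 : ∀ᶠ δ in 𝓝[≥] (0 : ℝ), wG S β o σ τ c i δ < ε := hw.eventually_lt_const hε
    have h2 : Tendsto (fun t : ℝ => |t - s|) (𝓝[Icc 0 60] s) (𝓝[≥] 0) := by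
      refine tendsto_nhdsWithin_iff.2 ⟨?_, Eventually.of_forall fun t => Set.mem_Ici.2 (abs_nonneg _)⟩
      have hc : Continuous (fun t : ℝ => |t - s|) := by fun_prop
      have := hc.tendsto s
      rw [sub_self, abs_zero] at this
      exact this.mono_left nhdsWithin_le_nhds
    filter_upwards [h2.eventually h1, self_mem_nhdsWithin] with t ht ht'
    rw [Real.norm_eq_abs, Real.norm_eq_abs, smul_eq_mul]
    exact (htay i s hs' t ht').trans (mul_le_mul_of_nonneg_right ht.le (abs_nonneg _))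
  · refine ⟨?_, fun n => ?_, fun w => ?_⟩
    · exact tendsto_nhds_unique (hlim _ 0 h0)
        (tendsto_const_nhds.congr fun N => ((hZ N).init.1).symm)
    · exact tendsto_nhds_unique (hlim _ 0 h0)
        (tendsto_const_nhds.congr fun N => ((hZ N).init.2.1 n).symm)
    · exact tendsto_nhds_unique (hlim _ 0 h0)
        (tendsto_const_nhds.congr fun N => ((hZ N).init.2.2 w).symm)
  · intro t ht
    have h1 : ∀ F : Finset (Ix J), ∑ a ∈ F, z a t ^ 2 ≤ 1 := by
      intro F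
      have h2 : Tendsto (fun N => ∑ a ∈ F, Z N a t ^ 2) U (𝓝 (∑ a ∈ F, z a t ^ 2)) :=
        tendsto_finsetSum _ fun a _ => (hlim a t ht).pow 2
      refine le_of_tendsto h2 (Eventually.of_forall fun N => ?_)
      have hsm : Summable (fun a => Z N a t ^ 2) := by
        refine summable_of_ne_finset_zero (s := (lev_fin hK N).toFinset) ?_
        intro b hb
        rw [Set.Finite.mem_toFinset, Set.mem_ofPred_eq, not_le] at hb
        rw [(hZ N).zero b hb t]
        simp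
      exact (hsm.sum_le_tsum F fun a _ => sq_nonneg _).trans ((hZ N).energy t ht)
    exact ⟨summable_of_sum_le (fun a => sq_nonneg _) h1,
      Real.tsum_le_of_sum_le (fun a => sq_nonneg _) h1⟩
  · intro j t ht
    exact le_of_tendsto (hlim (Sum.inr j) t ht).abs
      (Eventually.of_forall fun N => hb N j t ht)

theorem t_LIM : S_DEC → S_LIM := fun _ => t_LIM'

end Pool.Agent.Y620.EK
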